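import Mathlib
import Pool.Agent.K3h28.NS.Reg

/-!
# The logarithms of all archimedean absolute values of almost all integers of number fields
-/

set_option autoImplicit false

namespace Pool.Agent.K3h34.GP

open NumberField IsDedekindDomain Finset Module
open Pool.Agent.K3h28.NF
open Pool.Agent.K3h28.NS (abs_alg abs_indep count_dep to_region)
open Pool.Agent.H437R2.Man.Low (nm)
open Pool.Agent.H297R2 (NoRel NoRel.reindex NoRel.reindex_iff)
open Pool.Agent.H301R2.SSE (QB mem_QB)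

/-- The logarithms of the absolute values of `x` satisfy, together with `t`, a relation. -/
def BadPl {K : Type} [Field K] [NumberField K] {τ : Type} (D : ℕ) (t : τ → ℂ) (x : 𝓞 K) : Prop :=
  x ≠ 0 ∧ ¬ NoRel QB D (Sum.elim t (fun v : InfinitePlace K => (Real.log (v (x : K)) : ℂ)))

/-- **One variable.** -/
theorem pl_one (K : Type) [Field K] [NumberField K] (τ : Type) [Fintype τ] (D : ℕ) (ε : ℝ)
    (hε : 0 < ε) : ∃ X₀ : ℕ, ∀ X ≥ X₀, ∀ t : τ → ℂ, NoRel QB D t →
      ∀ A : Finset (𝓞 K), A ⊆ bx K X → (∀ x ∈ A, BadPl D t x) →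
      (A.card : ℝ) ≤ ε * (bx K X).card := by
  classical
  obtain ⟨J, j, hJ, hj, -, hcubes⟩ := dense_cube K
  obtain ⟨r, hr⟩ := cube_logs τ (InfinitePlace K) D
  obtain ⟨y₀, hy₀⟩ := abs_indep (K := K) J hJ
  obtain ⟨X₀, hX₀⟩ := hcubes r ε hε y₀
  refine ⟨X₀, fun X hX t ht A hA hbad => ?_⟩
  by_contra hcon
  push Not at hcon
  obtain ⟨a, v, w, b, c, ha, hv, hw, hinj, hcube⟩ := hX₀ X hX A hA hcon.le
  have hb0 : ∀ i, b i ≠ 0 := fun i => (hv i).ne_zero hJ
  have hc0 : ∀ i, c i ≠ 0 := fun i => (hw i).ne_zero hJ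
  have hpl : ∀ (u : InfinitePlace K) (x : 𝓞 K), x ≠ 0 → u (x : K) ≠ 0 := by
    intro u x hx
    rw [Ne, map_eq_zero]
    exact_mod_cast hx
  set w' : Fin r → InfinitePlace K → ℂ := fun i u =>
    ((Real.log (u ((c i : 𝓞 K) : K)) - Real.log (u ((b i : 𝓞 K) : K)) : ℝ) : ℂ) with hw'
  have hli : LinearIndependent ℚ (fun p : Fin r × InfinitePlace K => w' p.1 p.2) :=
    hy₀ r v w b c hv hw hinj
  have halg : ∀ i u, IsAlgebraic ℚ (Complex.exp (w' i u)) := by
    intro i u
    have h1 := hpl u _ (hc0 i)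
    have h2 := hpl u _ (hb0 i)
    simp only [hw']
    rw [← Complex.ofReal_exp, ← Real.log_div h1 h2, Real.exp_log (by positivity)]
    push_cast
    rw [div_eq_mul_inv]
    exact (abs_alg u _).mul (abs_alg u _).inv
  set v₀ : InfinitePlace K → ℂ := fun u => ((Real.log (u (a : K)) +
    ∑ i, Real.log (u ((b i : 𝓞 K) : K)) - r * Real.log (u (j : K)) : ℝ) : ℂ) with hv₀
  obtain ⟨S, hS⟩ := hr t ht v₀ w' halg hli
  obtain ⟨n, hn, hnS⟩ := hcube S
  obtain ⟨hn0, hnbad⟩ := hbad n hn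
  apply hnbad
  have hlog : ∀ u : InfinitePlace K, (Real.log (u (n : K)) : ℂ) = v₀ u + ∑ i ∈ S, w' i u := by
    intro u
    have h2 := congrArg (fun z : 𝓞 K => Real.log (u (z : K))) hnS
    simp only [map_mul, map_pow, map_prod] at h2
    have hne : ∀ i ∈ (univ : Finset (Fin r)),
        u (((if i ∈ S then c i else b i : 𝓞 K)) : K) ≠ 0 := by
      intro i _
      split_ifs
      · exact hpl u _ (hc0 i)
      · exact hpl u _ (hb0 i)
    rw [Real.log_mul (pow_ne_zero _ (hpl u _ hj)) (hpl u _ hn0), Real.log_pow,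
      Real.log_mul (hpl u _ ha) (Finset.prod_ne_zero_iff.2 hne), Real.log_prod hne] at h2
    have h3 : ∀ i : Fin r, Real.log (u (((if i ∈ S then c i else b i : 𝓞 K)) : K)) =
        Real.log (u ((b i : 𝓞 K) : K)) +
          (if i ∈ S then Real.log (u ((c i : 𝓞 K) : K)) - Real.log (u ((b i : 𝓞 K) : K)) else 0) := by
      intro i
      split_ifs
      · ring
      · ring
    simp only [h3] at h2
    rw [Finset.sum_add_distrib, Finset.sum_ite_mem, Finset.univ_inter] at h2
    simp only [hv₀, hw']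
    rw [← Complex.ofReal_sum, ← Complex.ofReal_add]
    congr 1
    linarith
  have h1 : (fun v : InfinitePlace K => (Real.log (v (n : K)) : ℂ)) =
      fun u => v₀ u + ∑ i ∈ S, w' i u := funext hlog
  rw [h1]
  exact hS

/-- The logarithms of all absolute values of the entries of `x` satisfy, together with `t`, a
relation, and no entry is zero. -/
def BadPT {k : ℕ} {K : Fin k → Type} [∀ i, Field (K i)] [∀ i, NumberField (K i)] {τ : Type} (D : ℕ)
    (t : τ → ℂ) (x : ∀ i, 𝓞 (K i)) : Prop :=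
  (∀ i, x i ≠ 0) ∧ ¬ NoRel QB D (Sum.elim t
    (fun p : Σ i, InfinitePlace (K i) => (Real.log (p.2 (x p.1 : K p.1)) : ℂ)))

open Classical in
/-- **Tuples.** -/
theorem pl_tup (k : ℕ) : ∀ (K : Fin k → Type) [∀ i, Field (K i)] [∀ i, NumberField (K i)]
    (τ : Type) [Fintype τ] (D : ℕ) (ε : ℝ), 0 < ε →
    ∃ X₀ : ℕ, ∀ X ≥ X₀, ∀ t : τ → ℂ, NoRel QB D t →
    (((Fintype.piFinset fun i => bx (K i) X).filter (fun x => BadPT D t x)).card : ℝ) ≤
      ε * ∏ i, ((bx (K i) X).card : ℝ) := by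
  induction k with
  | zero =>
    intro K _ _ τ _ D ε hε
    refine ⟨0, fun X _ t ht => ?_⟩
    rw [Finset.filter_false_of_mem]
    · simp [hε.le]
    · intro x _
      rintro ⟨-, hlam⟩
      apply hlam
      have : IsEmpty (Σ i : Fin 0, InfinitePlace (K i)) := ⟨fun p => p.1.elim0⟩
      rw [← NoRel.reindex_iff (Equiv.sumEmpty τ (Σ i : Fin 0, InfinitePlace (K i))).symm]
      exact ht
  | succ k ih =>
    intro K _ _ τ _ D ε hε
    obtain ⟨X₁, hX₁⟩ := pl_one (K 0) τ D (ε / 2) (by linarith)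
    obtain ⟨X₂, hX₂⟩ := ih (fun i => K i.succ) (τ ⊕ InfinitePlace (K 0)) D (ε / 2) (by linarith)
    refine ⟨max X₁ X₂, fun X hX t ht => ?_⟩
    refine count_dep k (fun i => 𝓞 (K i)) (fun i => bx (K i) X) (fun x => BadPT D t x) ε hε
      ((bx (K 0) X).filter (fun a : 𝓞 (K 0) => BadPl D t a)) (Finset.filter_subset _ _) ?_ ?_
    · exact hX₁ X (le_trans (le_max_left _ _) hX) t ht _
        (Finset.filter_subset _ _) (fun a ha => (Finset.mem_filter.1 ha).2)
    · intro a ha haE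
      by_cases h0 : a = 0
      · rw [Finset.filter_false_of_mem]
        · simp only [Finset.card_empty, Nat.cast_zero]
          positivity
        · intro m _ hm
          exact hm.1 0 h0
      · have hta : NoRel QB D (Sum.elim t
            (fun v : InfinitePlace (K 0) => (Real.log (v (a : K 0)) : ℂ))) := by
          by_contra hcon
          exact haE (Finset.mem_filter.2 ⟨ha, h0, hcon⟩)
        have h1 := hX₂ X (le_trans (le_max_right _ _) hX) (Sum.elim t
            (fun v : InfinitePlace (K 0) => (Real.log (v (a : K 0)) : ℂ))) hta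
        refine le_trans ?_ h1
        apply Nat.cast_le.2
        apply Finset.card_le_card
        intro m hm
        rw [Finset.mem_filter] at hm ⊢
        refine ⟨hm.1, fun i => hm.2.1 i.succ, fun hN => hm.2.2 ?_⟩
        rw [← NoRel.reindex_iff (sigEquiv τ (fun i => InfinitePlace (K i)))]
        convert hN using 1
        funext s
        rcases s with (i | σ) | ⟨i, σ⟩ <;> rfl

theorem pl_main (k : ℕ) (K : Fin k → Type) [∀ i, Field (K i)] [∀ i, NumberField (K i)]
    (τ : Type) [Fintype τ] (D : ℕ) (ε : ℝ) (hε : 0 < ε) :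
    ∃ X₀ : ℝ, ∀ X ≥ X₀, (reg K X).Finite ∧ ∀ t : τ → ℂ, NoRel QB D t →
      ({x | x ∈ reg K X ∧ BadPT D t x}.ncard : ℝ) ≤ ε * (reg K X).ncard := by
  classical
  obtain ⟨R, hR0, hR⟩ := to_region k K
  obtain ⟨X₁, hX₁⟩ := pl_tup k K τ D (ε / R) (by positivity)
  refine ⟨max (X₁ : ℝ) 1, fun X hX => ?_⟩
  obtain ⟨N₁, hN₁, hfin, h⟩ := hR ε hε X₁ X hX
  refine ⟨hfin, fun t ht => ?_⟩
  refine h (fun x => BadPT D t x) ?_
  convert hX₁ N₁ hN₁ t ht

end Pool.Agent.K3h34.GP
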