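import Mathlib
import Pool.Agent.K3h28.SP.CubeX
import Pool.Agent.K3h28.SP.ShiftSch

/-!
# The logarithms of almost all shifted primes over arbitrary numbers
-/

set_option autoImplicit false

namespace Pool.Agent.K3h34.GP

open Finset Filter Topology Module
open Pool.Agent.K3h28.SP
open Pool.Agent.H442R2.KF (piN)
open Pool.Agent.H297R2 (NoRel Ex)
open Pool.Agent.H301R2.SSE (QB mem_QB)

open Classical in
/-- **One variable.** -/
theorem sh_one (σ : Type) [Fintype σ] (D : ℕ) (h : ℤ) (h0 : h ≠ 0) : ∃ C : ℝ, 0 < C ∧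
    ∀ᶠ N : ℕ in atTop, ∀ t : σ → ℂ, NoRel QB D t →
    (((PN N).filter fun p : ℕ => 0 < (p : ℤ) + h ∧
      ¬ NoRel QB D (Sum.elim t fun _ : Unit => (Real.log (sh h p : ℝ) : ℂ))).card : ℝ) ≤
      C * (piN N / Real.log (Real.log N)) := by
  obtain ⟨C, hC0, hC⟩ := shift_free h h0
    (Fintype.card (Ex (σ ⊕ Unit) D) * D * (Fintype.card (Ex (σ ⊕ Unit) D) + 1))
  refine ⟨C, hC0, ?_⟩
  filter_upwards [hC] with N hN t ht
  refine hN _ (Finset.filter_subset _ _) (fun p hp => ((Finset.mem_filter.1 hp).2).1) ?_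
  intro B hB hcube
  obtain ⟨v₀, w, halg, hli, hw⟩ := cube_dirs _ B hcube
  obtain ⟨S, hS⟩ := cube_logsX σ D _ rfl t ht v₀ w halg hli
  obtain ⟨n, hn, hlog⟩ := hw S
  obtain ⟨p, hp, hpn⟩ := Finset.mem_image.1 (hB hn)
  apply ((Finset.mem_filter.1 hp).2).2
  rw [hpn, hlog]
  exact hS

/-- the exceptional tuples -/
def BadSh {σ : Type} {k : ℕ} (D : ℕ) (t : σ → ℂ) (h : Fin k → ℤ) (p : Fin k → ℕ) : Prop :=
  (∀ j, 0 < (p j : ℤ) + h j) ∧
    ¬ NoRel QB D (Sum.elim t fun j : Fin k => (Real.log (sh (h j) (p j) : ℝ) : ℂ))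

open Classical in
/-- **Tuples.** -/
theorem sh_tup (D k : ℕ) : ∀ (σ : Type) [Fintype σ] (h : Fin k → ℤ), (∀ j, h j ≠ 0) →
    ∃ C : ℝ, 0 < C ∧ ∀ᶠ N : ℕ in atTop, ∀ t : σ → ℂ, NoRel QB D t →
      (((Fintype.piFinset fun _ : Fin k => PN N).filter (BadSh D t h)).card : ℝ) ≤
        C * ((piN N : ℝ) ^ k / Real.log (Real.log N)) := by
  induction k with
  | zero =>
    intro σ _ h _
    refine ⟨1, one_pos, ?_⟩
    filter_upwards [tendsto_ll.eventually_ge_atTop 1] with N h1 t ht
    rw [Finset.filter_false_of_mem]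
    · simp only [Finset.card_empty, Nat.cast_zero]
      positivity
    · intro a _ ha
      apply ha.2
      rw [← NoRel.reindex_iff (Equiv.sumEmpty σ (Fin 0)).symm]
      exact ht
  | succ k ih =>
    intro σ _ h h0
    obtain ⟨C₁, hC₁0, hC₁⟩ := sh_one σ D (h 0) (h0 0)
    obtain ⟨C₂, hC₂0, hC₂⟩ := ih (σ ⊕ Unit) (fun j => h j.succ) (fun j => h0 j.succ)
    refine ⟨C₁ + C₂, by positivity, ?_⟩
    filter_upwards [hC₁, hC₂, tendsto_ll.eventually_ge_atTop 1] with N h1 h2 h3 t ht
    have hl0 : 0 < Real.log (Real.log N) := by linarith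
    have h4 := count_first k (PN N) (BadSh D t h)
      (C₁ * (piN N / Real.log (Real.log N))) (C₂ * ((piN N : ℝ) ^ k / Real.log (Real.log N)))
      ((PN N).filter (fun p : ℕ => 0 < (p : ℤ) + h 0 ∧
        ¬ NoRel QB D (Sum.elim t fun _ : Unit => (Real.log (sh (h 0) p : ℝ) : ℂ))))
      (Finset.filter_subset _ _) (h1 t ht) (by positivity) (by
        intro a ha haE
        by_cases hpos : 0 < (a : ℤ) + h 0
        · have hta : NoRel QB D (Sum.elim t fun _ : Unit => (Real.log (sh (h 0) a : ℝ) : ℂ)) := by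
            by_contra hcon
            exact haE (Finset.mem_filter.2 ⟨ha, hpos, hcon⟩)
          refine le_trans ?_ (h2 _ hta)
          apply Nat.cast_le.2
          apply Finset.card_le_card
          intro m hm
          rw [Finset.mem_filter] at hm ⊢
          refine ⟨hm.1, fun j => ?_, fun hgood => hm.2.2 ?_⟩
          · have := hm.2.1 j.succ
            rwa [Fin.cons_succ] at this
          · rw [← NoRel.reindex_iff (unitEquiv σ k)]
            have : (Sum.elim t (fun i : Fin (k + 1) =>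
                (Real.log (sh (h i) ((Fin.cons a m : Fin (k + 1) → ℕ) i) : ℝ) : ℂ))) ∘
                unitEquiv σ k =
                Sum.elim (Sum.elim t fun _ : Unit => (Real.log (sh (h 0) a : ℝ) : ℂ))
                  fun i : Fin k => (Real.log (sh (h i.succ) (m i) : ℝ) : ℂ) := by
              funext s
              rcases s with (i | c) | j <;> simp [unitEquiv]
            rw [this]
            exact hgood
        · rw [Finset.filter_false_of_mem]
          · simp only [Finset.card_empty, Nat.cast_zero]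
            positivity
          · intro m _ hm
            have := hm.1 0
            rw [Fin.cons_zero] at this
            exact hpos this)
    have h5 : C₁ * (piN N / Real.log (Real.log N)) * ((PN N).card : ℝ) ^ k +
        (PN N).card * (C₂ * ((piN N : ℝ) ^ k / Real.log (Real.log N))) =
        (C₁ + C₂) * ((piN N : ℝ) ^ (k + 1) / Real.log (Real.log N)) := by
      rw [card_PN, pow_succ]
      ring
    rw [h5] at h4
    exact h4

end Pool.Agent.K3h34.GP
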